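import Mathlib
import Pool.Agent.U157.EC.Rat

/-!
# Deligne's conjecture over `ℚ` for the rational Artin twists of CM elliptic curves, zeros of any order

Let `A` be an elliptic curve over `ℚ` with complex multiplication, `L / k` a Galois extension of number
fields with group `Q`, and `ρ` a RATIONAL representation of `Q`. The motive `M` over `ℚ` is the restriction of scalars from
`k` to `ℚ` of `h¹(A / k) ⊗ ρ`, that is, `M = h¹(A) ⊗ σ` for the rational representation `σ` of the absolute
Galois group of `ℚ` induced from `ρ` (up to isogeny `h¹` of an abelian variety which is isogenous to a power of `A` over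
an extension). The point `s = 1` is its only critical point. Deligne's conjecture says that `L(A / k, ρ, 1)` is a
rational multiple of the period. By Brauer's theorem and the known case of Hecke characters this is true if no
L-function in the denominator of Brauer's formula vanishes.

**Theorem.** It is true in each of the following cases.
(A) An integer `d ≥ 1` divides the orders at `s = 1` of the functions `L(A / k, χ, s)` for all irreducible characters `χ`
of `Q`, the order of `L(A / L, s)` is less than `3 d`, and `L(A / k, ρ, s)` has no pole at `s = 1`.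
(B) The degrees of the irreducible characters `χ` of `Q` for which `L(A / k, χ, s)` has a zero (or a pole) at `s = 1`, OF ANY
ORDER, add up to at most two. (These characters may be primitive.)
(C) `L(A / k, χ, s) = γ(s) L(A / k, χ, 2 - s)` near `s = 1` for all irreducible `χ`, with functions `γ` that are
continuous at `1` with `γ(1) = 1`, the order of `L(A / L, s)` is at most `5`, and `L(A / k, ρ, s)` has no pole at `s = 1`.

There is no exceptional case of quaternion characters and no hypothesis on the parity of their orders, as it is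
needed for general coefficient fields (`CMCurvesOrderTwo`, order at most two).

The data are explicit (`Pool.Agent.U213.EC.Data`): a Weierstrass equation of `A` over `ℤ`, its period lattice, a
nonzero real period `Ω₊` and a nonzero purely imaginary period `Ω₋`, a number field `F`, Galois over `ℚ` with group
`Gal(F/ℚ)`, embedded in `ℂ`, complex conjugation `c`, an element `x` of `F` with nonzero resolvents
`R(λ) = ∑_g λ(g) ι(g x)`, a finite set `S` of prime numbers which contains the bad and the ramified ones, and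
arithmetic Frobenius elements at the other prime numbers. The field `k` is the fixed field of the subgroup `H`
of `Gal(F/ℚ)`, and `L` is the fixed field of the kernel of the surjective homomorphism `π : H → Q`. `D.IsL f ℓ` says
that `ℓ` is the function `L(A, f, s)` for the character `f` of `Gal(F/ℚ)` (without the Euler factors at the primes
in `S`, which are nonzero rational numbers at `s = 1` for rational characters). The period is
`D.period σ = R(det σ) Ω₊ ^ d⁺ Ω₋ ^ d⁻`, with the multiplicities `d⁺`, `d⁻` of the eigenvalues `1`, `-1` of complex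
conjugation.

The hypothesis `MonomialTheorem` is a published theorem, Deligne's conjecture for the critical values of Hecke
L-functions (Blasius, Harder, Kings–Sprang, Kufner): the case where `σ` is induced from a linear character of a
subgroup. The proof uses the Galois action on the characters and the classification in degree two
(`Pool.Agent.R389`, `Pool.Agent.U157.DL`) and the bridge to the explicit data (`Pool.Agent.U213.EC`).
-/

set_option autoImplicit false

open Pool.Agent.U213.EC Pool.Agent.R389 Pool.Agent.H541R3.ART Filter Topology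

namespace Pool.Agent.Results.MP_b696eb_nt.CMCurvesRationalTwists

variable {F : Type} [Field F] [NumberField F] [IsGalois ℚ F] (D : Data F)
  (H : Subgroup (F ≃ₐ[ℚ] F)) {Q : Type} [Group Q] (π : H →* Q)

/-- `σ` is the representation of `Gal(F/ℚ)` induced from `ρ ∘ π` (it has the induced character). -/
def Induced {n m : ℕ} (ρ : Q →* Matrix (Fin n) (Fin n) ℚ)
    (σ : (F ≃ₐ[ℚ] F) →* Matrix (Fin m) (Fin m) ℚ) : Prop :=
  ∀ g, (σ g).trace = ind H (fun h => (ρ (π h)).trace) g

/-- `ℓ` is the function `L(A / k, χ, s)` for the character `χ` of `Q`. -/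
def IsTwist (χ : Q → ℂ) (ℓ : ℂ → ℂ) : Prop := D.IsL (ind H (fun h => χ (π h))) ℓ

/-- `ℓ` is the function `L(A / L, s)`. -/
def IsTop (ℓ : ℂ → ℂ) : Prop := D.IsL (ind (π.ker.map H.subtype) (fun _ => 1)) ℓ

/-- `χ` is irreducible and `L(A / k, χ, s)` has a zero (or a pole) at `s = 1`. -/
def Special (χ : Q → ℂ) : Prop :=
  χ ∈ Irr Q ∧ ∃ ℓ : ℂ → ℂ, IsTwist D H π χ ℓ ∧ meromorphicOrderAt ℓ 1 ≠ 0

/-- The L-function of `h¹(A) ⊗ σ` has no pole at `s = 1`. -/
def NoPole {m : ℕ} (σ : (F ≃ₐ[ℚ] F) →* Matrix (Fin m) (Fin m) ℚ) : Prop :=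
  ∀ ℓ : ℂ → ℂ, D.IsL (fun g => (((σ g).trace : ℚ) : ℂ)) ℓ → 0 ≤ meromorphicOrderAt ℓ 1

/-- Deligne's conjecture over `ℚ` for `h¹(A) ⊗ σ` at `s = 1`: the value (the limit at `1`) of the L-function is a rational
multiple of the period. -/
def RationalMultiple {m : ℕ} (σ : (F ≃ₐ[ℚ] F) →* Matrix (Fin m) (Fin m) ℚ) : Prop :=
  ∃ (q : ℚ) (ℓ : ℂ → ℂ), D.IsL (fun g => (((σ g).trace : ℚ) : ℂ)) ℓ ∧
    Tendsto ℓ (𝓝[≠] 1) (𝓝 ((q : ℂ) * D.period ((algebraMap ℚ ℂ).mapMatrix.toMonoidHom.comp σ)))

end Pool.Agent.Results.MP_b696eb_nt.CMCurvesRationalTwists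

open Pool.Agent.Results.MP_b696eb_nt.CMCurvesRationalTwists

/-- **Deligne's conjecture over `ℚ` for rational Artin twists of CM elliptic curves.** -/
theorem Pool.Agent.Results.MP_b696eb_nt.CMCurvesRationalTwists.result (monomial : MonomialTheorem)
    (F : Type) [Field F] [NumberField F] [IsGalois ℚ F] (D : Data F) (cm : D.CM)
    -- the extension `L / k` with group `Q`
    (H : Subgroup (F ≃ₐ[ℚ] F)) (Q : Type) [Group Q] [Finite Q] (π : H →* Q) (hπ : Function.Surjective π)
    -- a rational representation `ρ` of `Q`, and the representation `σ` induced from `ρ ∘ π`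
    (n : ℕ) (ρ : Q →* Matrix (Fin n) (Fin n) ℚ) (m : ℕ)
    (σ : (F ≃ₐ[ℚ] F) →* Matrix (Fin m) (Fin m) ℚ) (hσ : Induced H π ρ σ)
    -- the degrees of the irreducible characters
    (deg : (Q → ℂ) → ℕ) (hdeg : ∀ χ ∈ Irr Q, χ 1 = deg χ) :
    (∀ (d : ℕ) (ℓ₀ : ℂ → ℂ), 1 ≤ d →
      (∀ χ ∈ Irr Q, ∀ ℓ, IsTwist D H π χ ℓ →
        ∃ k : ℤ, meromorphicOrderAt ℓ 1 = (((d : ℤ) * k : ℤ) : WithTop ℤ)) →
      IsTop D H π ℓ₀ → meromorphicOrderAt ℓ₀ 1 < (((d : ℤ) * 3 : ℤ) : WithTop ℤ) → NoPole D σ →
      RationalMultiple D σ) ∧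
    (∑ᶠ χ ∈ {χ | Special D H π χ}, deg χ ≤ 2 → RationalMultiple D σ) ∧
    (∀ ℓ₀ : ℂ → ℂ, (∀ χ ∈ Irr Q, ∀ ℓ, IsTwist D H π χ ℓ → ∃ γ : ℂ → ℂ, ContinuousAt γ 1 ∧ γ 1 = 1 ∧
        ∀ᶠ s in 𝓝[≠] (1 : ℂ), ℓ s = γ s * ℓ (2 - s)) →
      IsTop D H π ℓ₀ → meromorphicOrderAt ℓ₀ 1 ≤ 5 → NoPole D σ → RationalMultiple D σ) := by
  have key : D.Deligne σ → RationalMultiple D σ := by
    rintro ⟨e, he⟩
    obtain ⟨ℓ, h1, h2⟩ := he (algebraMap ℚ ℂ)
    exact ⟨e, ℓ, h1, h2⟩
  have hA : ∀ (d : ℕ) (ℓ₀ : ℂ → ℂ), 1 ≤ d →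
      (∀ χ ∈ Irr Q, ∀ ℓ, IsTwist D H π χ ℓ →
        ∃ k : ℤ, meromorphicOrderAt ℓ 1 = (((d : ℤ) * k : ℤ) : WithTop ℤ)) →
      IsTop D H π ℓ₀ → meromorphicOrderAt ℓ₀ 1 < (((d : ℤ) * 3 : ℤ) : WithTop ℤ) → NoPole D σ →
      RationalMultiple D σ := fun d ℓ₀ hd hk h0 hz hp =>
    key (Pool.Agent.U157.EC.rat_div monomial cm hπ h0 (by omega) hk hz n ρ m σ hσ hp)
  refine ⟨hA, fun hs => ?_, fun ℓ₀ hfe h0 hz hp => ?_⟩
  · exact key (Pool.Agent.U157.EC.rat_reduced monomial cm hπ hdeg hs n ρ m σ hσ)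
  · refine hA 2 ℓ₀ (by norm_num) (fun χ hχ ℓ hℓ => ?_) h0 ?_ hp
    · obtain ⟨γ, h1, h2, h3⟩ := hfe χ hχ ℓ hℓ
      have h4 : MeromorphicAt ℓ 1 := hℓ.1 1
      have h5 : meromorphicOrderAt ℓ 1 ≠ ⊤ := hℓ.order_ne 1
      obtain ⟨k, hk⟩ := Pool.Agent.U157.DL.even_order h4 h5 h1 h2 (by simpa using h3)
      refine ⟨k, ?_⟩
      rw [← WithTop.coe_untop₀_of_ne_top h5, hk]
      congr 1
      push_cast
      ring
    · refine lt_of_le_of_lt hz ?_
      have h1 : ((5 : ℤ) : WithTop ℤ) < (((2 : ℕ) : ℤ) * 3 : ℤ) := by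
        rw [WithTop.coe_lt_coe]
        norm_num
      exact h1
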