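import Pool.Agent.U143.RG.Del3

/-!
# Deligne's conjecture with rational coefficients over all intermediate fields, from the solvable layers

Let `F/k` be a Galois extension of number fields with group `G` and let `M` be a motive over `k` with
rational coefficients. For a representation `ρ` of `G` over `ℚ` the twist `M ⊗ ρ` has rational coefficients;
for the permutation representation on the cosets of a subgroup `U` it is the motive `M` over the intermediate
field `F^U` (restricted to `k`). The number field `E` contains the roots of unity of order the exponent of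
`G`; `ℓ χ` is the L-function of the twist of `M` by the irreducible complex character `χ` of `G`, and `P τ χ`
is the component at the embedding `τ` of `E` of its period at `c`.

Hypothesis: the conjecture (with coefficients in `E`) holds at `c` for the abelian twists of `M` over those
intermediate fields `F^U` over which `F` is SOLVABLE. If `M` is potentially automorphic, for instance the
motive of an elliptic curve over a totally real field which becomes modular over the totally real field `F`,
these are the fields over which `M` is known to be automorphic (descent of Langlands and Arthur–Clozel). It is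
not assumed that the L-functions of `M` over the other intermediate fields are holomorphic at `c`.

* If the L-function of `M` over `F` has at `c` a zero of order at most two, then for ALL intermediate fields
  `F^U` the L-function of `M` over `F^U` has no pole at `c` and its value is a rational multiple of the
  period; and the same for every rational representation whose L-function has no pole at `c`.
* For zeros of large order the same holds for all `F^U` with `U N / N` solvable, `N` a normal subgroup built
  from direct products of alternating groups and groups `SL_2(2^k)` in the range of the order of the zero and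
  from abelian groups with large orbits on the characters, for instance for all intermediate fields if
  `G = A_n` or `S_n`, `n ≥ r + 3`.

The proof uses two theorems on class functions with nonnegative multiplicities at the linear characters of the
solvable subgroups: those of degree at most two are Heilbronn functions
(`Pool.Agent.U143.SH.isHeilbronn_of_sol`), and those of small degree are constant on `N`
(`Pool.Agent.U143.RG`); and the decompositions of the starting library (`Pool.Agent.R389`).
-/

set_option autoImplicit false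

open Filter Topology

namespace Pool.Agent.Results.MP_b696eb_nt.IntermediateFields

open Pool.Agent.H541R3.ART (Irr)
open Pool.Agent.R389 (ind IsDecomp)

/-- The L-functions and the periods at the point `c` of the twists of a motive with rational
coefficients by the irreducible characters of `G`: functions `ℓ χ` which are meromorphic and not
identically zero near `c`, and nonzero numbers `P τ χ`, the component at the embedding `τ` of `E` of
the period of the twist (with coefficients in `E`) which belongs to `χ` at `τ`. -/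
structure RationalTwistData (G : Type) [Group G] (E : Type) [Field E] where
  /-- the L-function of the twist by `χ` -/
  ℓ : (G → ℂ) → ℂ → ℂ
  /-- the period of the twist by `χ` at the embedding `τ` -/
  P : (E →+* ℂ) → (G → ℂ) → ℂ
  /-- the point -/
  c : ℂ
  mero : ∀ χ ∈ Irr G, MeromorphicAt (ℓ χ) c ∧ meromorphicOrderAt (ℓ χ) c ≠ ⊤
  period : ∀ τ, ∀ χ ∈ Irr G, P τ χ ≠ 0

/-- The order at `c` of the L-function of the twist by the character which contains `χ` with the
multiplicity `m χ`. -/
noncomputable def RationalTwistData.order {G : Type} [Group G] {E : Type} [Field E]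
    (D : RationalTwistData G E) (m : (G → ℂ) → ℕ) : WithTop ℤ :=
  meromorphicOrderAt (fun s => ∏ᶠ χ ∈ Irr G, D.ℓ χ s ^ m χ) D.c

/-- The order at `c` of the L-function over the fixed field of `C (i + 1)` is smaller by at most `r` than
the one for `C i`, where `⊥ = C 0 ≤ C 1 ≤ … ≤ C t` is a chain of solvable normal subgroups of `G`, and it is
at most `r` for `C t`. For `t = 0`: the order at `c` of the L-function over `F` is at most `r`. -/
def RationalTwistData.GrowsBy {G : Type} [Group G] {E : Type} [Field E] (D : RationalTwistData G E)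
    (r : ℕ) : Prop :=
  ∃ (t : ℕ) (C : ℕ → Subgroup G), Monotone C ∧ (∀ i, (C i).Normal) ∧ C 0 = ⊥ ∧
    Group.IsSolvable (C t) ∧
    (∀ i < t, ∀ m m' : (G → ℂ) → ℕ, IsDecomp (ind (C i) (fun _ => 1)) m →
      IsDecomp (ind (C (i + 1)) (fun _ => 1)) m' → D.order m ≤ D.order m' + (r : WithTop ℤ)) ∧
    (∀ m : (G → ℂ) → ℕ, IsDecomp (ind (C t) (fun _ => 1)) m → D.order m ≤ (r : WithTop ℤ))

/-- **Deligne's conjecture over `ℚ`** for the twist by the rational character with the multiplicities `m`:
let `Ω` be its period, that is: the period over `E`, the product of the `P τ χ ^ m χ`, is `τ u` times `Ω` for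
all `τ`, for one `u` in `E`. Then the value at `c` of the L-function is a rational multiple of `Ω`. -/
def RationalTwistData.Holds {G : Type} [Group G] {E : Type} [Field E] (D : RationalTwistData G E)
    (m : (G → ℂ) → ℕ) : Prop :=
  ∀ (Ω : ℂ) (u : E), (∀ τ : E →+* ℂ, ∏ᶠ χ ∈ Irr G, D.P τ χ ^ m χ = τ u * Ω) →
    ∃ q : ℚ, Tendsto (fun s => ∏ᶠ χ ∈ Irr G, D.ℓ χ s ^ m χ) (𝓝[≠] D.c) (𝓝 (q * Ω))

/-- `S` is isomorphic to an alternating group of degree `m ≥ 8` with `r ≤ m - 3`, or `r ≤ m - 2` and `m`
not prime, or to `SL_2(k)` for a finite field `k` of characteristic two with at least `r + 2` elements. -/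
def Factor (r : ℕ) (S : Type) [Group S] : Prop :=
  (∃ m : ℕ, 8 ≤ m ∧ (r + 3 ≤ m ∨ (r + 2 ≤ m ∧ ¬ m.Prime)) ∧
    Nonempty (S ≃* alternatingGroup (Fin m))) ∨
  (∃ (k : Type) (_ : Field k) (_ : Finite k) (_ : CharP k 2), r + 2 ≤ Nat.card k ∧
    Nonempty (S ≃* Matrix.SpecialLinearGroup (Fin 2) k))

/-- The normal subgroup `A` of `Q` is a direct product of finitely many groups with the property `Factor r`,
or it is abelian and every linear character `lam ≠ 1` of `A` has more than `r` different conjugates
`a ↦ lam (g a g⁻¹)`, `g ∈ Q`. -/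
def Layer (r : ℕ) {Q : Type} [Group Q] (A : Subgroup Q) : Prop :=
  (∃ (l : ℕ) (S : Fin l → Type) (_ : ∀ j, Group (S j)),
    (∀ j, Factor r (S j)) ∧ Nonempty (A ≃* ∀ j, S j)) ∨
  ((∀ a ∈ A, ∀ b ∈ A, a * b = b * a) ∧ ∀ lam : A →* ℂˣ, lam ≠ 1 →
    r < {mu : A →* ℂˣ | ∃ g : Q, ∀ a b : A, (b : Q) = g * a * g⁻¹ → mu a = lam b}.ncard)

/-- There is a chain `1 = C 0 ≤ C 1 ≤ … ≤ C t = N` of normal subgroups of `G` such that the image of
`C (i + 1)` in `G / C i` has the property `Layer r`, for `i < t`. -/
def Built (r : ℕ) {G : Type} [Group G] (N : Subgroup G) : Prop :=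
  ∃ (t : ℕ) (C : ℕ → Subgroup G) (_ : ∀ i, (C i).Normal), C 0 = ⊥ ∧ C t = N ∧ Monotone C ∧
    ∀ i < t, Layer r ((C (i + 1)).map (QuotientGroup.mk' (C i)))

end Pool.Agent.Results.MP_b696eb_nt.IntermediateFields

open Pool.Agent.H541R3.ART (Irr)
open Pool.Agent.R389 (ind IsDecomp Deligne AN)
open Pool.Agent.Results.MP_b696eb_nt.IntermediateFields

theorem Pool.Agent.Results.MP_b696eb_nt.IntermediateFields.Factor.finite {r : ℕ} {S : Type} [Group S]
    (h : Factor r S) : Finite S := by
  rcases h with ⟨m, -, -, ⟨e⟩⟩ | ⟨k, _, _, _, -, ⟨e⟩⟩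
  · exact Finite.of_equiv _ e.symm.toEquiv
  · exact Finite.of_equiv _ e.symm.toEquiv

theorem Pool.Agent.Results.MP_b696eb_nt.IntermediateFields.Factor.rigid {r : ℕ} {S : Type} [Group S]
    (h : Factor r S) : Pool.Agent.U143.RG.SRigid r S := by
  have hf := h.finite
  rcases h with ⟨m, hm, hr, ⟨e⟩⟩ | ⟨k, _, _, _, hr, ⟨e⟩⟩
  · exact (Pool.Agent.U143.RG.alt_range hm hr).of_surj e.symm.toMonoidHom e.symm.surjective
  · exact (Pool.Agent.U143.RG.sl2_rigid hr).of_surj e.symm.toMonoidHom e.symm.surjective

theorem Pool.Agent.Results.MP_b696eb_nt.IntermediateFields.Built.const {r : ℕ} {G : Type} [Group G]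
    [Finite G] {N : Subgroup G} (h : Built r N) {θ : G → ℂ}
    (hθ : Pool.Agent.H302R3.IsSolHeilbronn θ) {s : ℕ} (hs : s ≤ r) (h1 : θ 1 = s) :
    ∀ n ∈ N, ∀ x, θ (n * x) = θ x := by
  obtain ⟨t, C, hn, h0, rfl, -, hl⟩ := h
  refine Pool.Agent.U143.RG.const_chain hθ h1 t C hn h0 fun i hi η hη hη1 => ?_
  have hA : ((C (i + 1)).map (QuotientGroup.mk' (C i))).Normal :=
    Subgroup.Normal.map (hn (i + 1)) _ (QuotientGroup.mk'_surjective _)
  rcases hl i hi with ⟨l, S, _, hS, ⟨e⟩⟩ | ⟨hc, ho⟩
  · have hfin : ∀ j, Finite (S j) := fun j => (hS j).finite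
    exact Pool.Agent.U143.RG.const_of_prod hη hs hη1 _ (fun j => (hS j).rigid)
      (Subgroup.subtype _ |>.comp e.symm.toMonoidHom) fun n hn => ⟨e ⟨n, hn⟩, by simp⟩
  · exact Pool.Agent.U143.RG.const_of_orbit hη hs hη1 _ hc ho

/-- **Deligne's conjecture over the intermediate fields.** Let the number field `E` contain a primitive root
of unity of order the exponent of `G`. Suppose that Deligne's conjecture at `c` holds, with coefficients in
`E`, for the twists by the characters induced from the linear characters of the SOLVABLE subgroups of `G`.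

(A) Suppose that the order at `c` of the L-function over the top field, the product of the `ℓ χ ^ χ(1)`, is at
most two.
* For ALL subgroups `U` of `G` the L-function of `M` over the fixed field of `U` has no pole at `c`, and the
  conjecture (over `ℚ`) holds for it.
* The conjecture holds for every representation of `G` over `ℚ` whose L-function has no pole at `c`.

(B) Suppose that the order at `c` grows by at most `r` along a chain of fields as in
`RationalTwistData.GrowsBy` (for example: the order over the top field is at most `r`), and let the normal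
subgroup `N` be built from products of groups `A_m`, `SL_2(2^k)` in the range of `r` and from abelian groups
with more than `r` conjugates of each nontrivial character.
* For every subgroup `U` whose image in `G / N` is solvable the L-function of `M` over the fixed field of `U`
  has no pole at `c`, and the conjecture holds for it.
* For every representation of `G` over `ℚ` without nonzero vectors fixed by `N` the L-function has order zero
  at `c`, and the conjecture holds.
* The conjecture holds for all representations of `G` over `ℚ` if `G / N` has an abelian normal subgroup with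
  nilpotent quotient. -/
theorem Pool.Agent.Results.MP_b696eb_nt.IntermediateFields.result
    (G : Type) [Group G] [Finite G] (E : Type) [Field E] [NumberField E]
    (D : RationalTwistData G E) (ζ : E) (hζ : IsPrimitiveRoot ζ (Monoid.exponent G))
    (hmon : ∀ (U : Subgroup G) (ψ : U →* Eˣ), Group.IsSolvable U →
      Deligne (fun _ => D.ℓ) D.P D.c (ind U (fun u => ((ψ u : Eˣ) : E))))
    (deg : (G → ℂ) → ℕ) (hdeg : ∀ χ ∈ Irr G, χ 1 = deg χ) :
    (D.order deg ≤ 2 →
      (∀ (U : Subgroup G) (m : (G → ℂ) → ℕ), IsDecomp (ind U (fun _ => 1)) m →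
        0 ≤ D.order m ∧ D.Holds m) ∧
      (∀ (V : Type) [AddCommGroup V] [Module ℚ V] [FiniteDimensional ℚ V] (ρ : Representation ℚ G V)
        (m : (G → ℂ) → ℕ), IsDecomp (fun g => ((ρ.character g : ℚ) : ℂ)) m → 0 ≤ D.order m →
          D.Holds m)) ∧
    (∀ r : ℕ, D.GrowsBy r → ∀ (N : Subgroup G) [N.Normal], Built r N →
      (∀ U : Subgroup G, Group.IsSolvable (U.map (QuotientGroup.mk' N)) → ∀ m : (G → ℂ) → ℕ,
        IsDecomp (ind U (fun _ => 1)) m → 0 ≤ D.order m ∧ D.Holds m) ∧
      (∀ (V : Type) [AddCommGroup V] [Module ℚ V] [FiniteDimensional ℚ V]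
        (ρ : Representation ℚ G V), (∀ v, (∀ k ∈ N, ρ k v = v) → v = 0) → ∀ m : (G → ℂ) → ℕ,
          IsDecomp (fun g => ((ρ.character g : ℚ) : ℂ)) m → D.order m = 0 ∧ D.Holds m) ∧
      (AN (G ⧸ N) → ∀ (V : Type) [AddCommGroup V] [Module ℚ V] [FiniteDimensional ℚ V]
        (ρ : Representation ℚ G V) (m : (G → ℂ) → ℕ),
          IsDecomp (fun g => ((ρ.character g : ℚ) : ℂ)) m → D.Holds m)) := by
  classical
  obtain ⟨τ₀⟩ : Nonempty (E →+* ℂ) := inferInstance
  have hL : ∀ τ : E →+* ℂ, ∀ χ ∈ Irr G, MeromorphicAt ((fun _ : E →+* ℂ => D.ℓ) τ χ) D.c ∧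
      meromorphicOrderAt ((fun _ : E →+* ℂ => D.ℓ) τ χ) D.c ≠ ⊤ := fun _ => D.mero
  have hrat : ∀ (V : Type) [AddCommGroup V] [Module ℚ V] (ρ : Representation ℚ G V) (τ : E →+* ℂ)
      (g : G), τ (algebraMap ℚ E (ρ.character g)) = ((ρ.character g : ℚ) : ℂ) := by
    intro V _ _ ρ τ g
    rw [eq_ratCast, map_ratCast]
  have hone : ∀ U : Subgroup G, (fun u : U => (((1 : U →* ℂˣ) u : ℂˣ) : ℂ)) = fun _ => 1 := by
    intro U
    funext u
    simp
  refine ⟨fun hz => ⟨fun U m hm => ?_, fun V _ _ _ ρ m hm hpole Ω u hΩ => ?_⟩,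
    fun r hr N _ hNb => ?_⟩
  · obtain ⟨ρ, hρ⟩ := Pool.Agent.U143.RG.exists_perm U
    have h1 : 0 ≤ D.order m := by
      refine Pool.Agent.U143.SH.order_nonneg D.mero
        (Pool.Agent.U143.RG.heil_sol hζ hL hmon τ₀ hdeg hz) U 1 ?_
      rw [hone U]
      exact hm
    refine ⟨h1, fun Ω u hΩ => ?_⟩
    refine Pool.Agent.U143.RG.main_rat_sol' hζ D.mero D.period hmon hdeg hz ρ (m := m) ?_ h1 hΩ
    have h2 : (fun g => ((ρ.character g : ℚ) : ℂ)) = ind U (fun _ => (1 : ℂ)) := funext hρ
    rw [h2]
    exact hm
  · exact Pool.Agent.U143.RG.main_rat_sol' hζ D.mero D.period hmon hdeg hz ρ hm hpole hΩ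
  · obtain ⟨t, C, hC, hn, h0, hs, hg, hl⟩ := hr
    have hcos : ∀ n ∈ N, ∀ x, (Pool.Agent.H541R3.ART.theta (Pool.Agent.R389.ords D.ℓ D.c) : G → ℂ)
        (n * x) = (Pool.Agent.H541R3.ART.theta (Pool.Agent.R389.ords D.ℓ D.c) : G → ℂ) x := by
      refine Pool.Agent.U143.RG.ords_prop D.mero
        (Pool.Agent.U143.RG.nonneg_ords hζ hL hmon τ₀) r t C hC hn h0 hs hg hl
        (fun θ => ∀ n ∈ N, ∀ x, θ (n * x) = θ x) (fun a b ha hb n hn x => ?_)
        fun η hη s hsr h1 => hNb.const hη hsr h1
      simp only [ha n hn x, hb n hn x]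
    have hK : ∀ k ∈ N, (Pool.Agent.H541R3.ART.theta (Pool.Agent.R389.ords D.ℓ D.c) : G → ℂ) k
        = (Pool.Agent.H541R3.ART.theta (Pool.Agent.R389.ords D.ℓ D.c) : G → ℂ) 1 := fun k hk => by
      have h := hcos k hk 1
      rwa [mul_one] at h
    have hmonT : ∀ (U : Subgroup G) (ψ : U →* Eˣ), Pool.Agent.R389.Tame U →
        Deligne (fun _ => D.ℓ) D.P D.c (ind U (fun u => ((ψ u : Eˣ) : E))) :=
      fun U ψ hU => hmon U ψ hU.solvable
    refine ⟨fun U hU m hm => ?_, fun V _ _ _ ρ hρ m hm => ?_, fun hQ V _ _ _ ρ m hm Ω u hΩ => ?_⟩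
    · have hD := Pool.Agent.U143.RG.mono_deligne hζ hL D.period hmon τ₀ N hK U hU 1
      have hF : ∀ (τ : E →+* ℂ) (g : G), τ (ind U (fun u => (((1 : U →* Eˣ) u : Eˣ) : E)) g)
          = ind U (fun _ => (1 : ℂ)) g := by
        intro τ g
        rw [Pool.Agent.R389.ind_map]
        congr 1
        funext u
        simp
      refine ⟨?_, fun Ω u hΩ => Pool.Agent.U143.RG.rat_of_deligne D.period hF hD hm hΩ⟩
      obtain ⟨e, he⟩ := hD
      exact (Pool.Agent.U143.RG.order_of_limit (L := fun _ : E →+* ℂ => D.ℓ) (τ := τ₀) D.mero (he τ₀ m (by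
        have h3 : (fun g => τ₀ (ind U (fun u => (((1 : U →* Eˣ) u : Eˣ) : E)) g))
          = ind U (fun _ => (1 : ℂ)) := funext (hF τ₀)
        rw [h3]; exact hm))).1
    · have h1 : (fun g => τ₀ (algebraMap ℚ E (ρ.character g)))
          = fun g => ((ρ.character g : ℚ) : ℂ) := funext (hrat V ρ τ₀)
      have h0 := Pool.Agent.U143.RG.inv_char_zero (Rat.castHom ℂ) N ρ hρ
      obtain ⟨e, he0, he⟩ := Pool.Agent.U143.RG.new_of_inv hζ hL D.period hmonT τ₀ N hK
        (f := fun g => algebraMap ℚ E (ρ.character g)) (by
          rw [h1]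
          exact Pool.Agent.R389.virt_of_closure (Pool.Agent.R389.cch_mem ρ)) (by
          rw [h1]
          exact h0)
      refine ⟨?_, fun Ω u hΩ => Pool.Agent.U143.RG.rat_of_deligne D.period (hrat V ρ) he.deligne
        hm hΩ⟩
      have h2 := he.spec τ₀ m (by rw [h1]; exact hm)
      refine (Pool.Agent.U143.RG.order_of_limit (L := fun _ : E →+* ℂ => D.ℓ) (τ := τ₀) D.mero h2).2 ?_
      refine mul_ne_zero ((map_ne_zero τ₀).mpr he0) ?_
      rw [Pool.Agent.R389.finprod_irr (fun χ => D.P τ₀ χ ^ m χ)]
      exact Finset.prod_ne_zero_iff.mpr fun χ hχ =>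
        pow_ne_zero _ (D.period τ₀ χ (Pool.Agent.H541R3.ART.mem_irrF.mp hχ))
    · obtain ⟨σ, hσ⟩ := Pool.Agent.U143.RG.exists_base (E := E) ρ
      have hQs : Group.IsSolvable (G ⧸ N) := Pool.Agent.U143.RG.an_solvable hQ
      have hD := Pool.Agent.U143.RG.all_deligne hζ hL D.period hmonT τ₀ N hK
        (fun W _ _ _ σ hσ => Pool.Agent.U143.RG.old_deligne hζ hL D.period
          (fun U ψ => Pool.Agent.U143.RG.mono_deligne hζ hL D.period hmon τ₀ N hK U
            (Group.isSolvable_of_isSolvable_injective (Subgroup.subtype_injective _)) ψ)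
            τ₀ N hQ σ hσ) σ
      refine Pool.Agent.U143.RG.rat_of_deligne D.period (fun τ g => ?_) hD hm hΩ
      rw [hσ g]
      exact hrat V ρ τ g
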