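import Pool.Agent.U213.KV.Rat

/-!
# Deligne's conjecture for abelian varieties isogenous to powers of CM elliptic curves

Let `A` be an elliptic curve over `ℚ` with complex multiplication by the imaginary quadratic field `K`, and
`φ` its Hecke character, `L(A / K, s) = L(φ, s) L(φ̄, s)`. Let `L / k` be a Galois extension of number fields
which contain `K`, with group `Q`, and `ρ` a representation of `Q` over a number field `E` which contains
`K`. The motive `φ ⊗ ρ` over `k` has coefficients in `E`. For `E = K` these are, up to isogeny, the abelian
varieties over `k` which become isogenous to a power of `A` over `L`.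

We prove Deligne's conjecture for the restriction of scalars of `φ ⊗ ρ` to `ℚ` at the critical point
`s = 1`, with coefficients in `E` and with rational coefficients, if the order `r` at `s = 1` of the L-function of
`φ` over `L` (half of the order of `L(A / L, s)`) satisfies one of the conditions

* `r ≤ 1`;
* `r ≤ 2`, and no twist by the two-dimensional character of a quaternion group of order eight, a quotient
  of the Galois group of `L` over a field between `k` and `L`, has a simple zero;
* `Q` is solvable and, for a linear character `λ` of `Q`, `r` is less than the order of `L(φ ⊗ λ, s)` over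
  `k` plus `p`, for all prime divisors `p` of the degree of `L / k`. (There is no bound on `r`.)

The data `D : Data K F`: a Weierstrass equation of `A` over `ℤ`, its period lattice, a nonzero period `Ω`, the
complex multiplication; a number field `F`, Galois over `K`, embedded in `ℂ` by `ι`; an element `x` of `F`
with nonzero resolvents `R(λ) = ∑_g λ(g) ι(g x)`; a finite set `S` of primes of `K` which contains the bad and
the ramified ones; arithmetic Frobenius elements `Frob_v` and the numbers `φ(v)` at the other primes `v`:
`φ(v)` has the norm `N v` and the trace `a_v`, and its conjugate is in `v`. The field `k` is the fixed field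
of the subgroup `H` of `Gal(F/K)`, and `L` is the one of the kernel of the surjective homomorphism
`π : H → Q`. The representation `σ` of `Gal(F/K)` is induced from `ρ ∘ π`; its dimension is `m`.

`D.IsL f ℓ`: `ℓ` is the function `L(φ ⊗ f, s)`, the product of the `det (1 - φ(v) σ(Frob_v) (N v) ^ (-s))⁻¹`
over the primes `v ∉ S`. `D.Deligne j σ`: for one `e` in `E` and all embeddings `τ` of `E` in `ℂ` over `K` the
number `L(φ ⊗ τσ, 1)` is `τ(e) Ω ^ m R(det τσ)`. (The embeddings over the other embedding of `K` give the
complex conjugate statement. The period is Deligne's: the comparison isomorphism of the motive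
is the one of the Lie algebra of `A` tensored with the one of the Artin motive.) `D.Rational j σ`: for the
motive over `ℚ` with rational coefficients, the restriction of scalars of `φ ⊗ σ` from `K` to `ℚ`, the value is
a rational multiple of the period.

The hypothesis `MonomialTheorem` is a published theorem, Deligne's conjecture for the critical values of Hecke
L-functions (Blasius, Harder, Kings–Sprang, Kufner): the case of the representations which are induced
from linear characters of subgroups. If `r = 0`, the result follows from Brauer's induction theorem; at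
zeros Brauer's theorem only gives quotients `0 / 0`. The group theory is in `Pool.Agent.R389` (`main`,
`main_two`, `main_small`); new are the periods (`Pool.Agent.U213.KV`: products of resolvents over `K`, the
period of a representation and the periods of its constituents at all embeddings), the embeddings
over `K` only (`KV.delT_iff`), the coefficient fields without roots of unity (`KV.Data.of_large`), the base
field `k`, and rational coefficients.
-/

set_option autoImplicit false

open Pool.Agent.U213.KV Pool.Agent.R389

namespace Pool.Agent.Results.MP_b696eb_nt.PowersOfCMCurves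

/-- The conditions on the order `r` of `ℓ₀`, the L-function of `φ` over `L`. -/
def SmallOrder {K F : Type} [Field K] [NumberField K] [Field F] [NumberField F] [Algebra K F]
    [IsGalois K F] (D : Data K F) (H : Subgroup (F ≃ₐ[K] F)) {Q : Type} [Group Q] [Finite Q]
    (π : H →* Q) (ℓ₀ : ℂ → ℂ) : Prop :=
  meromorphicOrderAt ℓ₀ 1 ≤ 1 ∨
  (meromorphicOrderAt ℓ₀ 1 ≤ 2 ∧ ∀ (U : Subgroup Q) (f : U →* QuaternionGroup 2),
    Function.Surjective f → ∀ ℓ : ℂ → ℂ,
      D.IsL (ind H (fun h => ind U (fun u => Pool.Agent.H302R2.quatChar (f u)) (π h))) ℓ →
      meromorphicOrderAt ℓ 1 ≠ 1) ∨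
  (Group.IsSolvable Q ∧ ∃ (lam : Q →* ℂˣ) (ℓ₁ : ℂ → ℂ),
    D.IsL (ind H (fun h => ((lam (π h) : ℂˣ) : ℂ))) ℓ₁ ∧
    ∀ p : ℕ, p.Prime → p ∣ Nat.card Q → meromorphicOrderAt ℓ₀ 1 < meromorphicOrderAt ℓ₁ 1 + p)

theorem result (monomial : MonomialTheorem)
    (K F : Type) [Field K] [NumberField K] [Field F] [NumberField F] [Algebra K F] [IsGalois K F]
    (D : Data K F)
    -- the extension `L / k` with group `Q`, and the L-function of `φ` over `L`
    (H : Subgroup (F ≃ₐ[K] F)) (Q : Type) [Group Q] [Finite Q] (π : H →* Q)
    (hπ : Function.Surjective π)
    (ℓ₀ : ℂ → ℂ) (hℓ₀ : D.IsL (ind (π.ker.map H.subtype) (fun _ => 1)) ℓ₀)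
    (small : SmallOrder D H π ℓ₀)
    -- a representation `ρ` of `Q` over `E`, and the representation `σ` induced from `ρ ∘ π`
    (E : Type) [Field E] [NumberField E] (j : K →+* E) (n : ℕ) (ρ : Q →* Matrix (Fin n) (Fin n) E)
    (m : ℕ) (σ : (F ≃ₐ[K] F) →* Matrix (Fin m) (Fin m) E)
    (hσ : ∀ g, (σ g).trace = ind H (fun h => (ρ (π h)).trace) g) :
    D.Deligne j σ ∧ D.Rational j σ := by
  have h : D.Deligne j σ := by
    rcases small with h | ⟨h, hq⟩ | ⟨hQ, lam, ℓ₁, hℓ₁, hz⟩
    · exact Data.over_one monomial D H π hπ hℓ₀ h E j n ρ m σ hσ
    · exact Data.over_two monomial D H π hπ hℓ₀ h hq E j n ρ m σ hσ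
    · exact Data.over_solvable monomial D H π hπ hQ lam hℓ₀ hℓ₁ hz E j n ρ m σ hσ
  exact ⟨h, D.rational_of_deligne j σ h⟩

end Pool.Agent.Results.MP_b696eb_nt.PowersOfCMCurves
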