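import Pool.Agent.U803.DT.Rat

/-!
# Deligne's conjecture for the Artin twists of rational motives in extensions without small frames

Let `F/k` be a Galois extension of number fields with group `G` and let `M` be a motive over `k` with
rational coefficients. For a representation `ρ` of `G` over `ℚ` the twist `M ⊗ ρ` has rational
coefficients; its L-function is the product of the L-functions `ℓ χ` of the twists of `M` by the
irreducible complex characters `χ` of `G`, with the multiplicities `m χ` of `χ` in `ρ`. The number
field `E` contains the roots of unity of order the exponent of `G`; `P τ χ` is the component at the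
embedding `τ` of `E` of the period at `c` of the twist of `M` by the representation over `E` with the
character `χ` at `τ`.

The starting results for rational coefficients need an order at most two of the L-function of `M` over
`F` at `c`. Here the base and the extension are restricted instead: no section `X` (quotient of a
subgroup) of the solvable group `G / K` has a frame of degree `d` such that `d φ(|Z(X)|)` is at most
the order `r` of the zero over `F`, and `F / F^K` has no new zeros. A frame of degree `d > 1` of `X` is
a normal subgroup which contains the centre `Z(X)`, with quotient by `Z(X)` abelian of order `d ^ 2` and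
with centraliser `Z(X)`, where `Z(X)` is cyclic and contains all abelian normal subgroups of `X`
(`Pool.Agent.W446.AS.Frame`). The factor `φ(|Z(X)|)` comes from the rationality of `M`: the conjecture
for the abelian twists shows that the vanishing at `c` of an abelian twist over an intermediate field is
invariant under the conjugation of the character by the Galois group of the roots of unity.

For instance, if `F / k` has odd degree (it is then solvable) the order of the zero may be `17`, in
odd degree not divisible by `375`, `1215`, `3159` it may be `53`, in degree prime to six `99`, and in a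
solvable extension of degree not divisible by `24` it may be three.
-/

set_option autoImplicit false

open Filter Topology

namespace Pool.Agent.Results.MP_b696eb_nt.RationalTwistsNoSmallFrames

open Pool.Agent.H541R3.ART (Irr)

/-- The L-functions and the periods at the point `c` of the twists of a motive with rational
coefficients by the irreducible characters of `G`: functions `ℓ χ` which are meromorphic and not
identically zero near `c`, and nonzero numbers `P τ χ`, the component at the embedding `τ` of `E` of
the period of the twist (with coefficients in `E`) which belongs to `χ` at `τ`. -/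
structure RationalTwistData (G : Type) [Group G] (E : Type) [Field E] where
  /-- the L-function of the twist by `χ` -/
  ℓ : (G → ℂ) → ℂ → ℂ
  /-- the period of the twist by `χ` at the embedding `τ` -/
  P : (E →+* ℂ) → (G → ℂ) → ℂ
  /-- the point -/
  c : ℂ
  mero : ∀ χ ∈ Irr G, MeromorphicAt (ℓ χ) c ∧ meromorphicOrderAt (ℓ χ) c ≠ ⊤
  period : ∀ τ, ∀ χ ∈ Irr G, P τ χ ≠ 0

/-- The order at `c` of the L-function over the fixed field of the normal subgroup `K`: the product of
the `ℓ χ ^ χ(1)` over the irreducible characters `χ` of `G` which are trivial on `K` (for `K = ⊥`: over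
the top field). -/
noncomputable def RationalTwistData.order {G : Type} [Group G] {E : Type} [Field E]
    (D : RationalTwistData G E) (K : Subgroup G) (deg : (G → ℂ) → ℕ) : WithTop ℤ :=
  meromorphicOrderAt (fun s => ∏ᶠ χ ∈ {χ ∈ Irr G | ∀ k ∈ K, χ k = χ 1}, D.ℓ χ s ^ deg χ) D.c

/-- No section `X` of `Q` (quotient of a subgroup) has a frame of degree `d` such that `d` times the
number of the faithful characters of the centre of `X` is at most `r`. -/
def NoSmallFrames (r : ℕ) (Q : Type) [Group Q] : Prop :=
  ∀ (H : Subgroup Q) (X : Type) [Group X] (f : H →* X), Function.Surjective f →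
    ∀ (F : Subgroup X) (d : ℕ), Pool.Agent.W446.AS.Frame X F d →
      r < d * (Nat.card (Subgroup.center X)).totient

/-- Arithmetic conditions on the order `N` of the group and the order `r` of the zero. -/
def SmallOrder (N r : ℕ) : Prop :=
  (Odd N ∧ r ≤ 17) ∨
  (Odd N ∧ ¬ 375 ∣ N ∧ ¬ 1215 ∣ N ∧ ¬ 3159 ∣ N ∧ r ≤ 53) ∨
  (N.Coprime 6 ∧ r ≤ 99) ∨
  (∃ P : ℕ, 5 ≤ P ∧ (∀ q, q.Prime → q ∣ N → P ≤ q) ∧ r < (2 * P - 1) * (2 * P - 2)) ∨
  (¬ 24 ∣ N ∧ r ≤ 3) ∨
  (¬ 24 ∣ N ∧ ¬ 160 ∣ N ∧ ¬ 224 ∣ N ∧ r ≤ 5) ∨
  (¬ 24 ∣ N ∧ ¬ 54 ∣ N ∧ ¬ 160 ∣ N ∧ ¬ 224 ∣ N ∧ r ≤ 7)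

end Pool.Agent.Results.MP_b696eb_nt.RationalTwistsNoSmallFrames

open Pool.Agent.H541R3.ART (Irr)
open Pool.Agent.R389 (ind IsDecomp Deligne)
open Pool.Agent.Results.MP_b696eb_nt.RationalTwistsNoSmallFrames

/-- **Deligne's conjecture for the Artin twists of a rational motive, extensions without small
frames.** Let the number field `E` contain a primitive root of unity of order the exponent of `G`, and
let `K` be a normal subgroup of `G` with solvable quotient. Suppose that

* Deligne's conjecture at `c` holds, with coefficients in `E`, for the twists by the characters induced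
  from the linear characters of the subgroups of `G` (the abelian twists over the intermediate fields);
* the order at `c` of the L-function over the top field is at most `r`, and at most the order at `c` of
  the L-function over the fixed field of `K` (no condition if `K = ⊥`);
* no section `X` of `G / K` has a frame of degree `d` with `d φ(|Z(X)|) ≤ r`; or the order of `G / K`
  and `r` satisfy one of the arithmetic conditions `SmallOrder`.

Then (1) Deligne's conjecture at `c` holds, with coefficients in `E`, for the twists by all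
representations of `G` over `E`; (2) for every representation `ρ` of `G` over `ℚ`, with the
multiplicities `m χ` and the period `Ω` (the period over `E`, the product of the `P τ χ ^ m χ`, is `τ u`
times `Ω` for all `τ`, for one `u` in `E`), the value at `c` of the L-function of the twist by `ρ` is a
rational multiple of `Ω`. -/
theorem Pool.Agent.Results.MP_b696eb_nt.RationalTwistsNoSmallFrames.result
    (G : Type) [Group G] [Finite G] (E : Type) [Field E] [NumberField E]
    (D : RationalTwistData G E) (ζ : E) (hζ : IsPrimitiveRoot ζ (Monoid.exponent G))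
    (hmon : ∀ (U : Subgroup G) (ψ : U →* Eˣ),
      Deligne (fun _ => D.ℓ) D.P D.c (ind U (fun u => ((ψ u : Eˣ) : E))))
    (deg : (G → ℂ) → ℕ) (hdeg : ∀ χ ∈ Irr G, χ 1 = deg χ)
    (K : Subgroup G) [K.Normal] (hsol : Group.IsSolvable (G ⧸ K)) (r : ℕ)
    (hr : D.order ⊥ deg ≤ r) (hz : D.order ⊥ deg ≤ D.order K deg)
    (hframes : NoSmallFrames r (G ⧸ K) ∨ SmallOrder (Nat.card (G ⧸ K)) r) :
    (∀ (V : Type) [AddCommGroup V] [Module E V] [FiniteDimensional E V]
      (ρ : Representation E G V), Deligne (fun _ => D.ℓ) D.P D.c ρ.character) ∧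
    (∀ (V : Type) [AddCommGroup V] [Module ℚ V] [FiniteDimensional ℚ V]
      (ρ : Representation ℚ G V) (m : (G → ℂ) → ℕ),
      IsDecomp (fun g => ((ρ.character g : ℚ) : ℂ)) m → ∀ (Ω : ℂ) (u : E),
      (∀ τ : E →+* ℂ, ∏ᶠ χ ∈ Irr G, D.P τ χ ^ m χ = τ u * Ω) →
      ∃ q : ℚ, Tendsto (fun s => ∏ᶠ χ ∈ Irr G, D.ℓ χ s ^ m χ) (𝓝[≠] D.c) (𝓝 (q * Ω))) := by
  classical
  have hN : Nat.card G ≠ 0 := Nat.card_pos.ne'
  have hQ : Nat.card (G ⧸ K) ∣ Nat.card G := K.card_quotient_dvd_card
  have hnf : Pool.Agent.U803.DT.NF {k | k.Coprime (Nat.card G)} r (G ⧸ K) := by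
    rcases hframes with h | h | h | h | h | h | h | h
    · exact Pool.Agent.U803.DT.nf_totient hN hQ h
    · exact Pool.Agent.U803.DT.nf_coprime hN hQ fun p n q i hd => hd.seventeen h.1 h.2
    · exact Pool.Agent.U803.DT.nf_coprime hN hQ fun p n q i hd =>
        hd.fiftythree h.1 h.2.1 h.2.2.1 h.2.2.2.1 h.2.2.2.2
    · exact Pool.Agent.U803.DT.nf_coprime hN hQ fun p n q i hd => hd.six' h.1 h.2
    · obtain ⟨P, hP, hPN, hr⟩ := h
      exact Pool.Agent.U803.DT.nf_coprime hN hQ fun p n q i hd => hd.least' hP hPN hr
    · exact Pool.Agent.U803.DT.nf_coprime hN hQ fun p n q i hd => hd.rat3 h.1 h.2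
    · exact Pool.Agent.U803.DT.nf_coprime hN hQ fun p n q i hd =>
        hd.rat5 h.1 h.2.1 h.2.2.1 h.2.2.2
    · exact Pool.Agent.U803.DT.nf_coprime hN hQ fun p n q i hd =>
        hd.rat7 h.1 h.2.1 h.2.2.1 h.2.2.2.1 h.2.2.2.2
  have hset : {χ ∈ Irr G | ∀ k ∈ (⊥ : Subgroup G), χ k = χ 1} = Irr G := by
    ext χ
    refine ⟨fun h => h.1, fun h => ⟨h, fun k hk => ?_⟩⟩
    rw [Subgroup.mem_bot.mp hk]
  have hbot : D.order ⊥ deg
      = meromorphicOrderAt (fun s => ∏ᶠ χ ∈ Irr G, D.ℓ χ s ^ deg χ) D.c := by
    rw [RationalTwistData.order, hset]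
  rw [hbot] at hr hz
  have hr' : meromorphicOrderAt (fun s => ∏ᶠ χ ∈ Irr G, D.ℓ χ s ^ deg χ) D.c ≤ (r : ℤ) := by
    exact_mod_cast hr
  exact ⟨fun V _ _ _ ρ => Pool.Agent.U803.DT.main_frames_rat hζ D.mero D.period hmon hdeg K hsol
      hnf hr' hz ρ,
    fun V _ _ _ ρ m hm Ω u hΩ => Pool.Agent.U803.DT.main_frames_rat' hζ D.mero D.period hmon hdeg K
      hsol hnf hr' hz ρ hm hΩ⟩
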